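import Mathlib
import Pool.Agent.Helper269.OneRadius

set_option autoImplicit false
open MeasureTheory

namespace Pool.Agent.Results.MP_a19bc9_an.Q2RealAnalytic

open Pool.Agent.Helper269.OneRadius in
lemma analytic_V {s : ℝ} (h0 : 0 ≤ s) (h1 : s < 1) : AnalyticAt ℝ V s := by
  unfold V
  have hlog : AnalyticAt ℝ (fun s : ℝ => Real.log (1 - s)) s :=
    AnalyticAt.log (f := fun s : ℝ => 1 - s) (analyticAt_const.sub analyticAt_id)
      (by show 0 < 1 - s; linarith)
  have hone := one_le_aux h0 h1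
  have hlog2 : AnalyticAt ℝ (fun s : ℝ => Real.log (1 - Real.log (1 - s))) s :=
    AnalyticAt.log (f := fun s : ℝ => 1 - Real.log (1 - s)) (analyticAt_const.sub hlog)
      (by show 0 < 1 - Real.log (1 - s); linarith)
  exact analyticAt_id.mul (Real.analyticAt_cos.comp hlog2)

open Pool.Agent.Helper269.OneRadius in
lemma analytic_N {n : ℕ} (z : Fin n → ℂ) : AnalyticAt ℝ (N : (Fin n → ℂ) → ℝ) z := by
  have h : (N : (Fin n → ℂ) → ℝ) = fun z => ∑ j, ((z j).re * (z j).re + (z j).im * (z j).im) := by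
    ext z
    simp [N, Complex.normSq_apply]
  rw [h]
  refine Finset.analyticAt_fun_sum _ fun j _ => ?_
  have hre : AnalyticAt ℝ (fun z : Fin n → ℂ => (z j).re) z :=
    (Complex.reCLM.comp (ContinuousLinearMap.proj (R := ℝ) (φ := fun _ : Fin n => ℂ) j)).analyticAt z
  have him : AnalyticAt ℝ (fun z : Fin n → ℂ => (z j).im) z :=
    (Complex.imCLM.comp (ContinuousLinearMap.proj (R := ℝ) (φ := fun _ : Fin n => ℂ) j)).analyticAt z
  exact (hre.mul hre).add (him.mul him)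

/-- For every `n ≥ 1` there is a bounded real-analytic function on the unit ball of `ℂ^n` which
has the one-radius property but is not `M`-harmonic. -/
theorem result (n : ℕ) (_hn : 1 ≤ n)
    (φ : (Fin n → ℂ) → (Fin n → ℂ) → (Fin n → ℂ))
    (hφ : ∀ z w : Fin n → ℂ, φ z w =
      (1 - ∑ j, w j * starRingEnd ℂ (z j))⁻¹ •
        (z - ((∑ j, w j * starRingEnd ℂ (z j)) / (∑ j, z j * starRingEnd ℂ (z j))) • z
          - ((Real.sqrt (1 - ∑ j, Complex.normSq (z j)) : ℝ) : ℂ) •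
            (w - ((∑ j, w j * starRingEnd ℂ (z j)) / (∑ j, z j * starRingEnd ℂ (z j))) • z))) :
    ∃ u : (Fin n → ℂ) → ℝ,
      AnalyticOnNhd ℝ u {z : Fin n → ℂ | ∑ j, Complex.normSq (z j) < 1} ∧
      (∀ z : Fin n → ℂ, ∑ j, Complex.normSq (z j) < 1 → |u z| ≤ 1) ∧
      ∀ σ : Measure (Fin n → ℂ), IsProbabilityMeasure σ →
        (∀ᵐ ζ ∂σ, ∑ j, Complex.normSq (ζ j) = 1) →
        (∀ z : Fin n → ℂ, ∑ j, Complex.normSq (z j) < 1 →
          ∃ r : ℝ, 0 < r ∧ r < 1 ∧ ∫ ζ, u (φ z ((r : ℂ) • ζ)) ∂σ = u z) ∧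
        ¬ (∀ z : Fin n → ℂ, ∑ j, Complex.normSq (z j) < 1 →
          ∀ r : ℝ, 0 < r → r < 1 → ∫ ζ, u (φ z ((r : ℂ) • ζ)) ∂σ = u z) := by
  have hφ' : φ = Pool.Agent.Helper269.OneRadius.phi := by
    funext z w
    exact hφ z w
  subst hφ'
  refine ⟨Pool.Agent.Helper269.OneRadius.u, ?_, ?_, ?_⟩
  · intro z hz
    exact (analytic_V (Pool.Agent.Helper269.OneRadius.N_nonneg z) hz).comp (analytic_N z)
  · intro z hz
    exact (Pool.Agent.Helper269.OneRadius.abs_u_le z).trans (le_of_lt hz)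
  · intro σ hσ hS
    constructor
    · intro z hz
      obtain ⟨r, h0, h1, h2⟩ := Pool.Agent.Helper269.OneRadius.one_radius hz σ id measurable_id hS
      exact ⟨r, h0, h1, h2.symm⟩
    · intro H
      have h := H 0 (by simp) (1 / 2) (by norm_num) (by norm_num)
      exact Pool.Agent.Helper269.OneRadius.not_mean σ id hS h.symm

end Pool.Agent.Results.MP_a19bc9_an.Q2RealAnalytic
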